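import Pool.Agent.Helper7.BM.Goals2

/-!
# Project BT (MP_57df85_nt, Bateman's equation): odd common values

`σ(p,a) = σ(q,b)`, `p < q` primes, common value `N` odd (equivalently `b` even; then `a` is even).

THEOREM 1.  `q < (4p)^100`.
THEOREM 2.  `a < 300 b` and `q < 2^(30000 b)`.
COROLLARIES (with Baker's method, proved in project BM: `a ≤ C (log q)^115`): `log N ≤ C (log 2p)^116`, so for every prime `p` (in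
particular for `p = 2`) there are only finitely many solutions; the number of solutions with `q ≤ X` is at most `C (log X)^C`.

Method for Theorem 1.  `a = 2s`, `b = 2t`, `w = p^s`.  The equation is
(E)  `(q-1) p w^2 = (p-1) q^(2t+1) + (q-p)`.
So `w^2 ≡ 1 mod q`, `w ≡ ε = ±1 mod q` (`q` is prime), and `ε w` is, modulo `q^(2t+1)`, the value at `X = q` of the power series
`f(X) = ((1 - X/p)/(1 - X))^(1/2)`, but `w < q^t` is much smaller than the modulus.  Siegel's lemma gives polynomials `P`, `Q` with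
`deg Q ≤ t/2`, `deg P ≤ 3t/2`, coefficients `(4p)^(O(t))`, such that `P - f Q` vanishes at `X = 0` to the order `T`, almost `2t`.  So
`P(q) - ε w Q(q)` is divisible by `q^T` and of size `(4p)^(O(t)) q^(3t/2)`; the same for the derivatives (with `T` replaced by
`T - j`), and a zero estimate (Wronskian) shows that one of the first derivatives is not zero.  Contradiction if `q ≥ (4p)^100`.

Normalisation: with `Y = X/(4p)` everything is integral: `g(Y) = ((1-4Y)/(1-4pY))^(1/2)` is in `ℤ[[Y]]`.  At `X = q` we use the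
local variable `V`, `X = φ(V) = q + 4(q-p)(q-1) V`, for which `θ(V) = (f(φ(V))/f(q)) = ((1+4(q-1)V)/(1+4(q-p)V))^(1/2)` is in `ℤ[[V]]`:
`1 - φ = -(q-1)(1 + 4(q-p)V)` and `p - φ = -(q-p)(1 + 4(q-1)V)`.

Every packet is one `Prop` `S_XXX`; its docstring is a complete proof.  Other packets named in a docstring are
hypotheses of the statement.  Deliver `Pool/Agent/<Seat>/BT/XXX.lean`, theorem `t : S_XXX`.
-/

set_option autoImplicit false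

open Finset

namespace Pool.Agent.Helper84.BT

open Pool.Agent.Helper7.BM (sg)
open scoped Polynomial PowerSeries.WithPiTopology

/-! ## Definitions -/

/-- `1 + 4 a X` -/
noncomputable def la (a : ℤ) : PowerSeries ℤ := 1 + PowerSeries.C (4 * a) * PowerSeries.X

/-- `(1 + 4 a X)^(-1/2)` -/
noncomputable def Bs (a : ℤ) : PowerSeries ℤ :=
  PowerSeries.mk fun n => (Nat.centralBinom n : ℤ) * (-a) ^ n

/-- `((1 + 4 a X) / (1 + 4 b X))^(1/2)` -/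
noncomputable def Sr (a b : ℤ) : PowerSeries ℤ := la a * Bs a * Bs b

/-- the polynomial `(4p)^m P(X / (4p))` (for polynomials `P` of degree at most `m`) -/
noncomputable def sc (p : ℤ) (m : ℕ) (P : ℤ[X]) : ℤ[X] :=
  ∑ n ∈ range (m + 1), Polynomial.C (P.coeff n * (4 * p) ^ (m - n)) * Polynomial.X ^ n

/-- the polynomial `φ = q + 4 (q-p) (q-1) X` -/
noncomputable def ph (p q : ℤ) : ℤ[X] :=
  Polynomial.C q + Polynomial.C (4 * (q - p) * (q - 1)) * Polynomial.X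

/-- `P(φ) - w θ Q(φ)`, for the scaled polynomials -/
noncomputable def Eh (p q w : ℤ) (m : ℕ) (P Q : ℤ[X]) : PowerSeries ℤ :=
  (((sc p m P).comp (ph p q) : ℤ[X]) : PowerSeries ℤ) -
    PowerSeries.C w * Sr (q - 1) (q - p) * (((sc p m Q).comp (ph p q) : ℤ[X]) : PowerSeries ℤ)

/-- `4^s R_s(x)`, `R_s` the polynomial part of the square root of `1 + x + ... + x^(2s)` -/
def Rr (s x : ℕ) : ℕ := ∑ j ∈ range (s + 1), Nat.centralBinom j * 4 ^ (s - j) * x ^ (s - j)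

/-! ## Part I: power series -/

/-- PACKET CB (0.6 h).
Proof.  `B = Bs a`.  `(n+1) centralBinom (n+1) = 2 (2n+1) centralBinom n` (`Nat.succ_mul_centralBinom_succ`).  So the coefficient of `X^n` in
`la a * B'` is `(n+1) B_(n+1) + 4 a n B_n = (-a)^n (-2a(2n+1) + 4an) centralBinom n = -2a B_n`, i.e. `la a * B' = -2a B`.  Hence
`(B^2 la a)' = 2 B B' la a + 4a B^2 = 0`, and the constant coefficient is `1` (`PowerSeries.derivative.ext`). -/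
def S_CB : Prop := ∀ a : ℤ, Bs a ^ 2 * la a = 1

/-- PACKET SER (from CB, 1 h).
Proof.  (1) clear.  (2) `Sr^2 la b = la a^2 Bs a^2 Bs b^2 la b = la a` by CB twice.  (3) `S = Sr a b`.  Differentiate (2):
`2 S S' la b + 4 b S^2 = 4 a`.  Times `la b`: `2 S S' (la b)^2 = 4 a la b - 4 b la a = 4 (a - b)` (use (2)).  Times `S`, (2):
`2 S' la a la b = 4 (a - b) S`; cancel `2`.  (4) the coefficient of `X^n` in `la a * Bs a` is `1` for `n = 0` and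
`(-a)^n (centralBinom n - 4 centralBinom (n-1))` for `n ≥ 1`; as `0 ≤ centralBinom n ≤ 4 centralBinom (n-1) ≤ 4^n` it is at most
`(4M)^n` in absolute value; the same for `Bs b` (`centralBinom n ≤ 4^n`).  The product has `n + 1` such terms. -/
def S_SER : Prop := S_CB → ∀ a b : ℤ,
  PowerSeries.constantCoeff (Sr a b) = 1 ∧
  Sr a b ^ 2 * la b = la a ∧
  la a * la b * PowerSeries.derivative ℤ (Sr a b) = PowerSeries.C (2 * (a - b)) * Sr a b ∧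
  ∀ M : ℕ, |a| ≤ M → |b| ≤ M → ∀ n : ℕ,
    |PowerSeries.coeff n (Sr a b)| ≤ ((n : ℤ) + 1) * (4 * (M : ℤ)) ^ n

/-- the four properties of `Sr a b` proved in SER -/
def SerProp : Prop := ∀ a b : ℤ,
  PowerSeries.constantCoeff (Sr a b) = 1 ∧
  Sr a b ^ 2 * la b = la a ∧
  la a * la b * PowerSeries.derivative ℤ (Sr a b) = PowerSeries.C (2 * (a - b)) * Sr a b ∧
  ∀ M : ℕ, |a| ≤ M → |b| ≤ M → ∀ n : ℕ,
    |PowerSeries.coeff n (Sr a b)| ≤ ((n : ℤ) + 1) * (4 * (M : ℤ)) ^ n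

/-- PACKET POS (0.7 h).
Proof.  `g = Sr (-1) (-p)`, `g(0) = 1`, `(1-4X)(1-4pX) g' = 2(p-1) g`.  Let `I = mk (4^n) * mk ((4p)^n)`, all coefficients are positive and
`(1-4X)(1-4pX) I = 1`.  So `g' = 2(p-1) I g`, `(n+1) g_(n+1) = 2(p-1) ∑_(i+j=n) I_i g_j > 0` by strong induction. -/
def S_POS : Prop := SerProp → ∀ p : ℤ, 2 ≤ p → ∀ n : ℕ, 0 < PowerSeries.coeff n (Sr (-1) (-p))

/-! ## Part II: the auxiliary polynomials -/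

/-- PACKET SG5 (Siegel's lemma, 0.7 h).
Proof.  If `κ` is empty take `c = 1`.  Otherwise `Int.Matrix.exists_ne_zero_int_vec_norm_le (Matrix.of a)` with `m = card κ`, `n = card ι`, `m < n`
(`6m ≤ 5n`, `m ≥ 1`): `‖c‖ ≤ (n * max 1 ‖A‖)^(m/(n-m))`, the base is between `1` and `n B`, the exponent is at most `5` (`m ≤ 5(n-m)`). -/
def S_SG5 : Prop := ∀ (ι κ : Type) [Fintype ι] [Fintype κ] [Nonempty ι] (a : κ → ι → ℤ) (B : ℕ), 1 ≤ B →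
  (∀ k i, |a k i| ≤ B) → 6 * Fintype.card κ ≤ 5 * Fintype.card ι →
  ∃ c : ι → ℤ, c ≠ 0 ∧ (∀ k, ∑ i, a k i * c i = 0) ∧ ∀ i, |c i| ≤ ((Fintype.card ι : ℤ) * B) ^ 5

/-- PACKET AUX (from SG5, 1.5 h).
Proof.  `g = Sr (-1) (-p)`, coefficients `h_n`, `|h_n| ≤ (n+1)(4p)^n` (SerProp with `M = p`), so `|h_n| ≤ T (4p)^T` for `n < T`.  SG5 with the unknowns
`c_j`, `j ≤ m2` (`ι = Fin (m2+1)`) and the equations `∑_(j ≤ m2) c_j h_(n-j) = 0` for `m1 < n < T` (`κ = Fin (T-1-m1)`; as `n > m1 ≥ m2` all `n - j ≥ 0`),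
`B = T (4p)^T`.  `Q = ∑ c_j X^j ≠ 0`, `P = ∑_(n ≤ m1) a_n X^n` with `a_n = ` the coefficient of `X^n` in `g Q`.  Then `P - g Q` has zero coefficients for
`n ≤ m1` and for `m1 < n < T`.  `|a_n| ≤ H ∑_(j ≤ n) (n-j+1) (4p)^(n-j) ≤ H (n+1) ∑_(i ≤ n) (4p)^i ≤ 2 H (n+1) (4p)^n`. -/
def S_AUX : Prop := SerProp → S_SG5 → ∀ (p : ℤ) (m1 m2 T : ℕ), 2 ≤ p → m2 ≤ m1 → m1 < T →
  6 * (T - 1 - m1) ≤ 5 * (m2 + 1) →
  ∃ P Q : ℤ[X], Q ≠ 0 ∧ P.natDegree ≤ m1 ∧ Q.natDegree ≤ m2 ∧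
    (PowerSeries.X : PowerSeries ℤ) ^ T ∣ (P : PowerSeries ℤ) - Sr (-1) (-p) * (Q : PowerSeries ℤ) ∧
    (∀ n, |Q.coeff n| ≤ (((m2 + 1 : ℕ) : ℤ) * T * (4 * p) ^ T) ^ 5) ∧
    ∀ n, |P.coeff n| ≤ 2 * (((m2 + 1 : ℕ) : ℤ) * T * (4 * p) ^ T) ^ 5 * ((n : ℤ) + 1) * (4 * p) ^ n

/-- PACKET CAN (0.5 h): cancellation in the filtration `(q, X)^T` of `ℤ[[X]]`.
Proof.  Induction on `j` (strong): the coefficient of `X^j` in `U F` is `U_0 F_j + ∑_(i ≥ 1) U_i F_(j-i)`, it is divisible by `q^(T-j)`, and so is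
`F_(j-i)` (divisible by `q^(T-j+i)`).  So `q^(T-j) ∣ U_0 F_j`, and `U_0` is coprime to `q`. -/
def S_CAN : Prop := ∀ (q : ℤ) (T : ℕ) (U F : PowerSeries ℤ), Prime q →
  ¬ q ∣ PowerSeries.constantCoeff U →
  (∀ j ≤ T, q ^ (T - j) ∣ PowerSeries.coeff j (U * F)) → ∀ j ≤ T, q ^ (T - j) ∣ PowerSeries.coeff j F

/-- PACKET DIV (from CAN, 2.5 h).  Divisibility at `X = q`.
Proof.  Let `𝔉 = {F ∈ ℤ[[V]] : q^(T-j) ∣ F_j for all j ≤ T}`: an ideal of `ℤ[[V]]`; it contains `q^T` and `φ^T` (the coefficient of `V^j` in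
`φ^T = (q + cV)^T` is `choose T j q^(T-j) c^j`).  `T = 0` is trivial, let `T ≥ 1`.  `r = 4p`, `ρ = r^(T-1)`, `g = Sr (-1) (-p)`, `G` = the
polynomial of the first `T` coefficients of `g` (degree `≤ T-1`), `Ĝ = (sc p (T-1) G)(φ)`, `θ = Sr (q-1) (q-p)`, `α = 1 + 4(q-1)V`,
`β = 1 + 4(q-p)V`: `θ^2 β = α`, `1 - φ = -(q-1) β`, `p - φ = -(q-p) α`.
(A) `Ĝ - ρ w θ ∈ 𝔉`.  From `g^2 (1-4pY) = 1-4Y`: `G^2 (1-4pY) - (1-4Y) = Y^T K(Y)` with a polynomial `K` of degree `≤ T-1`.  Multiply by `r^(2T-1)` and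
replace `Y` by `X/r` (`r = 4p`, so `4pY = X`, `4Y = X/p`, `r^(2T-1) (1 - X/p) = 4 ρ^2 (p - X)`): with `Gs = sc p (T-1) G`,
`4p Gs^2 (1-X) - 4 ρ^2 (p - X) = X^T sc p (T-1) K`.  (Formal proof: it is enough to check the identity after the substitution
`X := r X`, which is injective, with `(sc p m F)(rX) = r^m F(X)` for `deg F ≤ m`.)  Put `X = φ`: `4 ((q-p) ρ^2 α - p (q-1) Ĝ^2 β) ∈ 𝔉`.
As `(q-1) p w^2 ≡ q - p mod q^T` and `θ^2 β = α`: `4 p (q-1) β (ρ w θ - Ĝ)(ρ w θ + Ĝ) ∈ 𝔉`.  The constant coefficient of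
`4 p (q-1) β (ρ w θ + Ĝ)` is `4p(q-1)(ρ w + ∑ g_n r^(T-1-n) q^n) ≡ 4p(q-1) 2ρ mod q`, not divisible by `q` (`q` is an odd prime as `q > p ≥ 2`,
`0 < p < q`).  CAN gives (A).
(B) `P - g Q = O(Y^T)`, so `P - G Q = Y^T L(Y)`, `L` a polynomial of degree `≤ m` (as `deg (P - G Q) ≤ m + T - 1`, `T ≥ 1`).  Multiply by `r^(m+T)` and
replace `Y` by `X/r`: `r (ρ Ps - Gs Qs) = X^T sc p m L`, `Ps = sc p m P`, `Qs = sc p m Q`.  Put `X = φ`: `r (ρ P̂ - Ĝ Q̂) ∈ 𝔉`, with (A):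
`r ρ (P̂ - w θ Q̂) ∈ 𝔉`, and `rρ = r^T` is coprime to `q`: CAN with `U = r^T`. -/
def S_DIV : Prop := SerProp → S_CAN → ∀ (p q w : ℤ) (T m : ℕ) (P Q : ℤ[X]), 2 ≤ p → p < q → Prime q →
  q ∣ w - 1 → q ^ T ∣ (q - 1) * p * w ^ 2 - (q - p) → P.natDegree ≤ m → Q.natDegree ≤ m →
  (PowerSeries.X : PowerSeries ℤ) ^ T ∣ (P : PowerSeries ℤ) - Sr (-1) (-p) * (Q : PowerSeries ℤ) →
  ∀ j ≤ T, q ^ (T - j) ∣ PowerSeries.coeff j (Eh p q w m P Q)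

/-- PACKET WR (0.6 h).
Proof.  `P = F Q + X^J R`, `P' = F' Q + F Q' + J X^(J-1) R + X^J R'`, so `P' Q - P Q' = F' Q^2 + X^(J-1) (...)` and
`A (P' Q - P Q') = k F Q^2 + X^(J-1)(...) = k P Q + X^(J-1) (...)` (`k` a constant).  (`J = 0`: nothing to prove.) -/
def S_WR : Prop := ∀ (F P Q A : PowerSeries ℤ) (k : ℤ) (J : ℕ),
  A * PowerSeries.derivative ℤ F = PowerSeries.C k * F →
  (PowerSeries.X : PowerSeries ℤ) ^ J ∣ P - F * Q →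
  (PowerSeries.X : PowerSeries ℤ) ^ (J - 1) ∣ PowerSeries.C k * P * Q -
    A * (PowerSeries.derivative ℤ P * Q - P * PowerSeries.derivative ℤ Q)

/-- the Wronskian of `P`, `Q` (polynomials in `X`) -/
noncomputable def Dl (p : ℤ) (P Q : ℤ[X]) : ℤ[X] :=
  Polynomial.C (p - 1) * P * Q - 2 * (1 - Polynomial.X) * (Polynomial.C p - Polynomial.X) *
    (P.derivative * Q - P * Q.derivative)

/-- PACKET DNZ (0.8 h).
Proof.  `P = (X-1)^μ P0`, `Q = (X-1)^ν Q0`, `P0(1), Q0(1) ≠ 0` (`Polynomial.exists_eq_pow_rootMultiplicity_mul_and_not_dvd`).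
`(X-1) P' = (X-1)^μ (μ P0 + (X-1) P0')`, the same for `Q`.  So
`Dl p P Q = (X-1)^(μ+ν) { (p-1) P0 Q0 + 2 (p-X) ((μ-ν) P0 Q0 + (X-1)(P0' Q0 - P0 Q0')) }`, and the value of `{...}` at `X = 1` is
`(p-1) P0(1) Q0(1) (1 + 2(μ-ν)) ≠ 0`. -/
def S_DNZ : Prop := ∀ (p : ℤ) (P Q : ℤ[X]), 2 ≤ p → P ≠ 0 → Q ≠ 0 → Dl p P Q ≠ 0

/-- PACKET ZES (zero estimate, from WR and DNZ, 2.5 h).
Proof.  `P ≠ 0` (otherwise `X^T ∣ g Q`, `g(0) = 1`, so `X^T ∣ Q`, `Q = 0` as `deg Q ≤ m2 < T`).  `Ps = sc p m1 P`, `Qs = sc p m1 Q` (not `0`),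
`Δ = Dl p Ps Qs ≠ 0` (DNZ), of degree `≤ m1 + m2 + 1` (`deg Ps ≤ m1`, `deg Qs ≤ m2`).  `r = 4p`.
(a) `X^(T-1) ∣ Δ`.  WR with `F = g = Sr (-1) (-p)`, `A = la (-1) * la (-p)`, `k = 2(p-1)`, `J = T`: `X^(T-1) ∣ D1 = 2(p-1) P Q - (1-4X)(1-4pX)(P'Q - PQ')`.
`Ps(rX) = r^m1 P(X)`, `r Ps'(rX) = r^m1 P'(X)`, `(p - rX) = p (1-4X)`, so `r Δ(rX) = r^(2 m1) 2p D1`; so the coefficients of `X^n` in `Δ`,
`n < T-1`, are `0`.
(b) Suppose that `coeff j (Eh ..) = 0` for all `j ≤ m1 + m2 + 3 - T`, and let `J = m1 + m2 + 4 - T`, `P̂ = Ps(φ)`, `Q̂ = Qs(φ)`, `c = 4(q-p)(q-1)`,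
`φ = q + cV`.  WR with `F = w θ`, `θ = Sr (q-1) (q-p)`, `A = la (q-1) * la (q-p)`, `k = 2(p-1)`: `V^(J-1) ∣ D2 = 2(p-1) P̂ Q̂ - A (P̂'Q̂ - P̂Q̂')`.
`P̂' = c Ps'(φ)` and `(1-φ)(p-φ) = (q-1)(q-p) A`, so `2 Δ(φ) = D2`.  So `Δ(q + cV)` has zero coefficients below `J - 1`, and so has
`Δ(q + V)` (the coefficients differ by the factor `c^j ≠ 0`): `(X - q)^(J-1) ∣ Δ` (`Polynomial.X_sub_C_pow_dvd_iff`).
(c) So the root `0` of `Δ` has multiplicity `≥ T-1` and the root `q ≠ 0` has multiplicity `≥ J-1`: `T - 1 + J - 1 ≤ deg Δ ≤ m1 + m2 + 1`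
(`Polynomial.card_roots'`; if `T = 0` or so adapt), but `T - 1 + J - 1 = m1 + m2 + 2`. -/
def S_ZES : Prop := SerProp → S_WR → S_DNZ → ∀ (p q w : ℤ) (T m1 m2 : ℕ) (P Q : ℤ[X]), 2 ≤ p → p < q →
  Q ≠ 0 → P.natDegree ≤ m1 → Q.natDegree ≤ m2 → m2 ≤ m1 → m2 < T → T ≤ m1 + m2 + 3 →
  (PowerSeries.X : PowerSeries ℤ) ^ T ∣ (P : PowerSeries ℤ) - Sr (-1) (-p) * (Q : PowerSeries ℤ) →
  ∃ j ≤ m1 + m2 + 3 - T, PowerSeries.coeff j (Eh p q w m1 P Q) ≠ 0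

/-- PACKET SIZ (1.5 h).
Proof.  `φ^n` has the coefficient `choose n j q^(n-j) (4(q-p)(q-1))^j` at `V^j`, between `0` and `(2q)^n (4q)^j` (`choose n j ≤ 2^n`, `(q-p)(q-1) ≤ q^2`).
`|P_n| (4p)^(m1-n) ≤ 2 H (m1+1) (4p)^m1`, so `|coeff_j P̂| ≤ 2 H (m1+1) (4p)^m1 (4q)^j ∑_(n ≤ m1) (2q)^n ≤ 4 H (m1+1) (4p)^m1 (2q)^m1 (4q)^j`.
`|Q_n| (4p)^(m1-n) ≤ H (4p)^m1`, `Q_n = 0` for `n > m2`, so `|coeff_j Q̂| ≤ 2 H (4p)^m1 (2q)^m2 (4q)^j`.  `|θ_i| ≤ (i+1) (4q)^i` (SerProp, `M = q`), so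
`|coeff_j (θ Q̂)| ≤ (j+1)^2 2 H (4p)^m1 (2q)^m2 (4q)^j`; times `|w| ≤ q^t`, `q^t (2q)^m2 ≤ (2q)^m1`.  The sum is at most
`H (4p)^m1 (2q)^m1 (4q)^j (4 (m1+1) + 2 (j+1)^2)`, and `4 (m1+1) + 2 (j+1)^2 ≤ 6 (m1+1)^2` for `j ≤ m1`. -/
def S_SIZ : Prop := SerProp → ∀ (p q w H : ℤ) (t m1 m2 : ℕ) (P Q : ℤ[X]), 2 ≤ p → p < q → m1 = t + m2 →
  |w| ≤ q ^ t → 0 ≤ H → P.natDegree ≤ m1 → Q.natDegree ≤ m2 → (∀ n, |Q.coeff n| ≤ H) →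
  (∀ n, |P.coeff n| ≤ 2 * H * ((n : ℤ) + 1) * (4 * p) ^ n) →
  ∀ j ≤ m1, |PowerSeries.coeff j (Eh p q w m1 P Q)| ≤
    6 * ((m1 : ℤ) + 1) ^ 2 * H * (4 * p) ^ m1 * (2 * q) ^ m1 * (4 * q) ^ j

/-- PACKET NUM (1.2 h).
Proof.  `r = 4p ≥ 8`, `q ≥ r^100`.  Cancel `q^(t+12u)` and `q^(4u+6)`: to show
`6 (t+12u+1)^2 ((12u+1)(t+22u) r^(t+22u))^5 r^(t+12u) 2^(t+12u) 4^(2u+3) < q^(6u-6)`.
`t ≤ 24u + 23 ≤ 32u`, so `t+22u ≤ 54u`, `t+12u ≤ 44u`.  The exponent of `r` is at most `5 * 54u + 44u = 314u`; `2^(44u+4u+6) ≤ 2^(50u) ≤ r^(17u)`; the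
rest is at most `6 (45u)^2 (13u * 54u)^5 ≤ 8^(9u) ≤ r^(9u)` for `u ≥ 3` (`u = 3`: `6 * 135^2 * 6318^5 < 8^27`; step: `((u+1)/u)^12 ≤ (4/3)^12 < 8^9`).
Total `≤ r^(340u) < r^(400u) ≤ r^(100 (6u-6)) ≤ q^(6u-6)` (`6u - 6 ≥ 4u`). -/
def S_NUM : Prop := ∀ u t p q : ℕ, 3 ≤ u → 24 * u ≤ t → t < 24 * u + 24 → 2 ≤ p → (4 * p) ^ 100 ≤ q →
  6 * (t + 12 * u + 1) ^ 2 * ((12 * u + 1) * (t + 22 * u) * (4 * p) ^ (t + 22 * u)) ^ 5 *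
    (4 * p) ^ (t + 12 * u) * (2 * q) ^ (t + 12 * u) * 4 ^ (2 * u + 3) * q ^ (2 * (2 * u + 3)) <
  q ^ (t + 22 * u)

/-- PACKET TAY (small `t`, from POS and DIV, 1.5 h).
Proof.  `h_n` = the coefficients of `g = Sr (-1) (-p)`: `0 < h_n ≤ (n+1)(4p)^n`.  For `T = t+1` and `T = t+2` (both `≤ 2t+1`) apply DIV with `P` = the polynomial
of the first `T` coefficients of `g`, `Q = 1`, `m = T-1`, `j = 0`: `q^T ∣ E_T := ∑_(n<T) h_n (4p)^(T-1-n) q^n - w (4p)^(T-1)` (the constant coefficient of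
`F(φ)` is `F(q)`; `(q-1) p w^2 - (q-p) = (p-1) q^(2t+1)`).  Suppose `q > (2t+3) (4p)^(t+1)`.
`|E_(t+1)| ≤ (4p)^t (∑_(n ≤ t) (n+1) q^n + q^t) ≤ (4p)^t (2t+3) q^t < q^(t+1)` (`∑_(n ≤ t) q^n ≤ 2 q^t`), so `E_(t+1) = 0`.
`E_(t+2) = 4p E_(t+1) + h_(t+1) q^(t+1) = h_(t+1) q^(t+1)`, divisible by `q^(t+2)`: `q ∣ h_(t+1)`, but `0 < h_(t+1) ≤ (t+2) (4p)^(t+1) < q`. -/
def S_TAY : Prop := SerProp → (∀ p : ℤ, 2 ≤ p → ∀ n : ℕ, 0 < PowerSeries.coeff n (Sr (-1) (-p))) → S_CAN → S_DIV →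
  ∀ (p q w : ℤ) (t : ℕ), 2 ≤ p → p < q → Prime q → q ∣ w - 1 → |w| ≤ q ^ t → 1 ≤ t →
  (q - 1) * p * w ^ 2 = (p - 1) * q ^ (2 * t + 1) + (q - p) → q ≤ (2 * t + 3) * (4 * p) ^ (t + 1)

/-- PACKET EQN (0.8 h).
Proof.  `(x-1) sg x m = x^(m+1) - 1`.  So `(q-1)(p^(2s+1) - 1) = (q-1)(p-1) N = (p-1)(q^(2t+1) - 1)`, this is the equation.  `p^s < q^t`: otherwise
`(q-1) p (p^s)^2 ≥ (q-1) p (q^t)^2 > (p-1) q (q^t)^2 + (q-p)` because `(q-1) p - (p-1) q = q - p` and `(q^t)^2 > 1`.  `t < s`: otherwise `s ≤ t`,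
`sg p (2s) < sg q (2t)`.  Modulo `q`: `-p w^2 ≡ -p`, `q ∤ p`, so `q ∣ w^2 - 1 = (w-1)(w+1)`. -/
def S_EQN : Prop := ∀ p q s t : ℕ, 2 ≤ p → p < q → q.Prime → 1 ≤ s → 1 ≤ t → sg p (2 * s) = sg q (2 * t) →
  ((q : ℤ) - 1) * p * ((p : ℤ) ^ s) ^ 2 = ((p : ℤ) - 1) * (q : ℤ) ^ (2 * t + 1) + ((q : ℤ) - p) ∧
  p ^ s < q ^ t ∧ t < s ∧ ∃ ε : ℤ, (ε = 1 ∨ ε = -1) ∧ (q : ℤ) ∣ ε * (p : ℤ) ^ s - 1

/-- THEOREM 1 (assembly, helper84).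
Proof.  EQN; `w = ε p^s`.  Suppose `q ≥ (4p)^100`.  `t < 72`: TAY gives `q ≤ (2t+3)(4p)^(t+1) ≤ 145 (4p)^72 < (4p)^100`.  `t ≥ 72`: `u = t / 24`, `m2 = 12u`,
`m1 = t + 12u`, `T = t + 22u ≤ 2t`.  AUX (`T-1-m1 = 10u-1`), ZES (`j ≤ m1+m2+3-T = 2u+3`), DIV, SIZ: `q^(T-j) ≤ |coeff j| ≤ 6 (m1+1)^2 H (4p)^m1 (2q)^m1 (4q)^j`,
against NUM. -/
def S_TH1 : Prop := ∀ p q s t : ℕ, 2 ≤ p → p < q → q.Prime → 1 ≤ s → 1 ≤ t →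
  sg p (2 * s) = sg q (2 * t) → q < (4 * p) ^ 100

/-! ## Part III: Runge's method, `p ≤ 4^s` -/

/-- PACKET RSQ (1.2 h).
Proof.  `c_j = centralBinom j / 4^j` (rational), `Rr s x = 4^s ∑_(j ≤ s) c_j x^(s-j)`.  `∑_(i+j=k) c_i c_j = 1` (`∑ centralBinom i centralBinom (k-i) = 4^k`:
from CB with `a = -1`: `Bs (-1)^2 (1-4X) = 1`).  So `(∑_(j ≤ s) c_j x^(s-j))^2 = ∑_(k ≤ 2s) e_k x^(2s-k)` with `e_k = 1` for `k ≤ s` and `0 ≤ e_k ≤ 1` for `k > s`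
(`e_k` is the sum of the `c_i c_j` with `i + j = k`, `i, j ≤ s`).  So `0 ≤ sg x (2s) - (..)^2 ≤ ∑_(i < s) x^i = (x^s - 1)/(x-1)`.  Last part: the
term `j = 0`. -/
def S_RSQ : Prop := S_CB → ∀ s x : ℕ, 2 ≤ x →
  Rr s x ^ 2 ≤ 16 ^ s * sg x (2 * s) ∧
  (x - 1) * (16 ^ s * sg x (2 * s)) ≤ (x - 1) * Rr s x ^ 2 + 16 ^ s * (x ^ s - 1) ∧
  4 ^ s * x ^ s ≤ Rr s x

/-- PACKET RVA (1.3 h).
Proof.  2-adic valuations.  `v(centralBinom j) = s_2(j)` (the sum of the binary digits; or: `centralBinom j * j! = 2^j * (1·3···(2j-1))`, so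
`v(centralBinom j) = j - v(j!)`; write `f(j) = j + v(j!)`, strictly increasing, `v(centralBinom j) = 2j - f(j)`).  The term `j < s` of `Rr s x` has valuation at least
`2(s-j) + 2j - f(j) = 2s - f(j) > 2s - f(s) = v(centralBinom s)`.  So `v(Rr s x) = 2s - f(s)` for every `x ≥ 1` (`s ≥ 1`).  `v(4^(s-t) Rr t y) = 2(s-t) + 2t - f(t) =
2s - f(t)`, which is different (`t < s`, `f(t) < f(s)`).  (`y ≥ 1`.) -/
def S_RVA : Prop := ∀ s t x y : ℕ, 1 ≤ t → t < s → 1 ≤ x → 1 ≤ y → Rr s x ≠ 4 ^ (s - t) * Rr t y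

/-- PACKET RUN (from RSQ and RVA, 1 h).
Proof.  `N` the common value.  `A = Rr s p / 4^s`, `B = Rr t q / 4^t` (real numbers).  RSQ: `0 ≤ N - A^2 ≤ (p^s-1)/(p-1)`, `0 ≤ N - B^2 ≤ (q^t-1)/(q-1)`, so
`|A^2 - B^2| < max(p^s, q^t)/(p-1)`, and `A + B ≥ p^s + q^t`, so `|A - B| < 1/(p-1)`.  `4^s A - 4^s B` is an integer, not `0` (RVA), so
`1 ≤ 4^s |A - B| < 4^s/(p-1)`. -/
def S_RUN : Prop := S_CB → S_RSQ → S_RVA → ∀ p q s t : ℕ, 2 ≤ p → p < q → 1 ≤ t → t < s →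
  sg p (2 * s) = sg q (2 * t) → p ≤ 4 ^ s

/-! ## Part IV: parity -/

/-- PACKET EVN (0.7 h).  Descent.
Proof.  Let `(X, z)` be a solution with `|z|` minimal; we may assume `X, z ≥ 0`.  `z = 0` is impossible (`(q-1) X^2 = q-2`), so `z ≥ 1`.
`(q-1) X^2 > (q-1) z^2`, so `e = X - z ≥ 1`.  Put `f = z - (q-1) e`, `h = f - (q-1) e = z - 2(q-1) e`.  The equation is
`z^2 - 2(q-1) e z - (q-1) e^2 + q - 2 = 0`, i.e. `f^2 = q(q-1) e^2 - (q-2) ≥ ((q-1) e)^2` (as `(q-1) e^2 ≥ q-2`).  If `f < 0` then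
`f ≤ -(q-1)e`, `z = f + (q-1) e ≤ 0`, contradiction.  So `f ≥ (q-1) e`, `0 ≤ h < z`.  And `(q-1)(e-h)^2 - q h^2 = q - 2` (identity:
`(q-1)(e-h)^2 - q h^2 - (q-2) = (q-1)(z+e)^2 - q z^2 - (q-2)`, `ring`), so `(e-h, h)` is a smaller solution. -/
def S_EVN : Prop := ∀ q X z : ℤ, 3 ≤ q → (q - 1) * X ^ 2 ≠ q * z ^ 2 + (q - 2)

/-- PACKET PAR (from EVN, 0.8 h).
Proof.  `q` is odd, so `N ≡ b + 1 mod 2`.  So `N` odd iff `b` even.  Let `b = 2t`.  If `p` is odd then `N ≡ a + 1`, so `a` is even.  If `p = 2` and `a` is odd, `a + 1 = 2s`: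
`(q-1)(2^(a+1) - 1) = q^(b+1) - 1`, so `(q-1) (2^s)^2 = q (q^t)^2 + (q-2)`, against EVN. -/
def S_PAR : Prop := S_EVN → ∀ p q a b : ℕ, p.Prime → q.Prime → p < q → 1 ≤ a → 1 ≤ b → sg p a = sg q b →
  (Odd (sg p a) ↔ Even b) ∧ (Even b → ∃ s t : ℕ, 1 ≤ s ∧ 1 ≤ t ∧ a = 2 * s ∧ b = 2 * t)

/-- THEOREM 2 (assembly, helper84).
Proof.  PAR, EQN (`t < s`, `p^s < q^t`), TH1: `p^s < q^t < (4p)^(100t) ≤ p^(300t)` (`4p ≤ p^3`), so `s < 300t`.  RUN: `p ≤ 4^s ≤ 4^(300t-1)`, `4p ≤ 4^(300t)`,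
`q < (4p)^100 ≤ 4^(30000t) = 2^(60000t) = 2^(30000 b)`. -/
def S_TH2 : Prop := ∀ p q a b : ℕ, p.Prime → q.Prime → p < q → 1 ≤ a → 1 ≤ b → sg p a = sg q b → Even b →
  a < 300 * b ∧ q < 2 ^ (30000 * b)

/-- PACKET POL (polylogarithmic count, 2.5 h).
Hypotheses: the bound of project BM for the exponents (`hE`), Runge's bound RG (`hR`), the determinant method CB (`hC`), product of primes PP, and TH1, PAR.
Proof.  `L = log X`.  We count the solutions with `√X < q ≤ X` first, for large `X`; `a, b ≤ A = C0 L^115`.  `a, b` are even (PAR), `d = gcd(a,b) ≥ 2`, `a = dα`, `b = dβ`,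
`β < α` (`b < a` as `p < q`), coprime.  `hR`: `p ≤ 4 (2α+3)^α d^α`, so `log p ≤ 2 + α log(5A^2) ≤ 2 + C1 α log L`.  TH1: `L/2 < log q ≤ 100 log(4p)
≤ 100 (4 + C1 α log L)`, so `α ≥ K := ⌊c L / log L⌋` with `c = 1/(400 C1)`, for large `L`.  `hC` with this `K`, and `Y = ⌈L^C2⌉`: `X ≤ Y^K` holds if
`C2 ≥ 2/c`; the product of primes condition is PP with `n = 3Y^2`; `b^2 X^b < 2^(3Y^2)` holds if `3Y^2 log 2 > 2 log A + A L`, i.e. if `C2 ≥ 59` and `L`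
is large.  So there are at most `324 a^3 Y^8` pairs `(p,q)` for given `(a,b)`, and at most `A^2 * 324 A^3 (2 L^C2)^8 ≤ L^C3` solutions with `√X < q ≤ X`.
All solutions with `q ≤ X`: sum over `X, X^(1/2), X^(1/4), ...` down to a constant `X0`: at most `(1 + log L / log 2) L^C3` plus the solutions with `q ≤ X0`,
which are finitely many (`a ≤ C0 (log X0)^115`).  So `≤ C L^C`. -/
def S_POL : Prop :=
  (∃ C : ℝ, 0 < C ∧ ∀ p q a b : ℕ, p.Prime → q.Prime → p < q → 1 ≤ a → 1 ≤ b → sg p a = sg q b →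
    (a : ℝ) ≤ C * Real.log q ^ 115) →
  (∀ d α β x y : ℕ, 2 ≤ d → 1 ≤ β → β < α → 2 ≤ x → x < y →
    sg x (d * α) = sg y (d * β) → x ≤ 4 * (2 * α + 3) ^ α * d ^ α) →
  (∀ K Y X a b d α β : ℕ, 2 ≤ K → 1 ≤ Y → X ≤ Y ^ K →
    2 ^ (3 * Y ^ 2) ≤ (∏ l ∈ (Ioc (3 * Y ^ 2) ((3 * Y ^ 2) ^ 2)).filter Nat.Prime, l) →
    0 < d → 0 < β → Nat.Coprime α β → a = d * α → b = d * β → K ≤ α → b ≤ a →
    b ^ 2 * X ^ b < 2 ^ (3 * Y ^ 2) → (Pool.Agent.Helper7.BM.Pr a b X).card ≤ 324 * a ^ 3 * Y ^ 8) →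
  Pool.Agent.Helper7.BM.StmtPP → S_EVN → S_PAR → S_TH1 →
  ∃ C : ℝ, ∀ X : ℕ, 3 ≤ X →
    {s : ℕ × ℕ × ℕ × ℕ | s.1.Prime ∧ s.2.2.1.Prime ∧ s.1 < s.2.2.1 ∧ s.2.2.1 ≤ X ∧ 1 ≤ s.2.1 ∧ 1 ≤ s.2.2.2 ∧
      sg s.1 s.2.1 = sg s.2.2.1 s.2.2.2 ∧ Odd (sg s.1 s.2.1)}.Finite ∧
    (({s : ℕ × ℕ × ℕ × ℕ | s.1.Prime ∧ s.2.2.1.Prime ∧ s.1 < s.2.2.1 ∧ s.2.2.1 ≤ X ∧ 1 ≤ s.2.1 ∧ 1 ≤ s.2.2.2 ∧
      sg s.1 s.2.1 = sg s.2.2.1 s.2.2.2 ∧ Odd (sg s.1 s.2.1)}.ncard : ℕ) : ℝ) ≤ C * Real.log X ^ C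

/-- THEOREM 3 (assembly, helper84).  `N ≤ exp(C (log 2p)^116)`.
Proof.  `hE`, TH1: `a ≤ C0 (log q)^115 ≤ C0 (100 log(4p))^115`, `N < 2 p^a`. -/
def S_TH3 : Prop := ∃ C : ℝ, ∀ p q a b : ℕ, p.Prime → q.Prime → p < q → 1 ≤ a → 1 ≤ b → sg p a = sg q b →
  Odd (sg p a) → q < (4 * p) ^ 100 ∧ (sg p a : ℝ) ≤ Real.exp (C * Real.log (2 * p) ^ 116)

end Pool.Agent.Helper84.BT
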