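import Pool.Agent.Helper84.BT.Goals

/-!
# Project BT: Theorem 1 from the packets
-/

set_option autoImplicit false

open Finset

namespace Pool.Agent.Helper84.BT

open Pool.Agent.Helper7.BM (sg)
open scoped Polynomial

theorem th1 (hSer : SerProp) (hSG5 : S_SG5) (hAUX : S_AUX) (hCAN : S_CAN) (hDIV : S_DIV) (hWR : S_WR)
    (hDNZ : S_DNZ) (hZES : S_ZES) (hSIZ : S_SIZ) (hNUM : S_NUM) (hPOS : S_POS) (hTAY : S_TAY)
    (hEQN : S_EQN) : S_TH1 := by
  intro p q s t hp hpq hq hs ht hN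
  by_contra hcon
  rw [not_lt] at hcon
  obtain ⟨hE, hwt, hts, ε, hε, hqd⟩ := hEQN p q s t hp hpq hq hs ht hN
  have hpZ : (2 : ℤ) ≤ p := by exact_mod_cast hp
  have hpqZ : (p : ℤ) < q := by exact_mod_cast hpq
  have hqZ : Prime (q : ℤ) := Nat.prime_iff_prime_int.1 hq
  set w : ℤ := ε * (p : ℤ) ^ s with hw
  have hε2 : ε ^ 2 = 1 := by rcases hε with h | h <;> rw [h] <;> norm_num
  have hw2 : w ^ 2 = ((p : ℤ) ^ s) ^ 2 := by rw [hw, mul_pow, hε2, one_mul]
  have hεa : |ε| = 1 := by rcases hε with h | h <;> rw [h] <;> norm_num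
  have hwa : |w| ≤ (q : ℤ) ^ t := by
    rw [hw, abs_mul, hεa, one_mul, abs_of_nonneg (by positivity)]
    exact_mod_cast hwt.le
  have hE' : ((q : ℤ) - 1) * p * w ^ 2 = ((p : ℤ) - 1) * (q : ℤ) ^ (2 * t + 1) + ((q : ℤ) - p) := by
    rw [hw2]; exact hE
  by_cases ht72 : t < 72
  · have h1 := hTAY hSer (hPOS hSer) hCAN hDIV p q w t hpZ hpqZ hqZ hqd hwa ht hE'
    have h2 : q ≤ (2 * t + 3) * (4 * p) ^ (t + 1) := by exact_mod_cast h1
    have h3 : (2 * t + 3) * (4 * p) ^ (t + 1) < (4 * p) ^ 100 := by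
      calc (2 * t + 3) * (4 * p) ^ (t + 1) ≤ 145 * (4 * p) ^ 72 := by
            apply Nat.mul_le_mul (by omega)
            exact Nat.pow_le_pow_right (by omega) (by omega)
        _ < (4 * p) ^ 3 * (4 * p) ^ 72 := by
            apply Nat.mul_lt_mul_of_pos_right _ (by positivity)
            calc 145 < 8 ^ 3 := by norm_num
              _ ≤ (4 * p) ^ 3 := Nat.pow_le_pow_left (by omega) 3
        _ = (4 * p) ^ 75 := by rw [← pow_add]
        _ ≤ (4 * p) ^ 100 := Nat.pow_le_pow_right (by omega) (by omega)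
    omega
  · rw [not_lt] at ht72
    set u := t / 24 with hu
    have hu3 : 3 ≤ u := by omega
    have hu1 : 24 * u ≤ t := by omega
    have hu2 : t < 24 * u + 24 := by omega
    obtain ⟨P, Q, hQ, hPd, hQd, hX, hQb, hPb⟩ := hAUX hSer hSG5 p (t + 12 * u) (12 * u) (t + 22 * u) hpZ
      (by omega) (by omega) (by omega)
    obtain ⟨j, hj, hj0⟩ := hZES hSer hWR hDNZ p q w (t + 22 * u) (t + 12 * u) (12 * u) P Q hpZ hpqZ hQ hPd
      hQd (by omega) (by omega) (by omega) hX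
    have hj2 : j ≤ 2 * u + 3 := by omega
    have hd := hDIV hSer hCAN p q w (t + 22 * u) (t + 12 * u) P Q hpZ hpqZ hqZ hqd
      (by
        rw [hE']
        have : ((p : ℤ) - 1) * (q : ℤ) ^ (2 * t + 1) + ((q : ℤ) - p) - ((q : ℤ) - p) =
          (q : ℤ) ^ (t + 22 * u) * ((q : ℤ) ^ (2 * t + 1 - (t + 22 * u)) * ((p : ℤ) - 1)) := by
          rw [← mul_assoc, ← pow_add, show t + 22 * u + (2 * t + 1 - (t + 22 * u)) = 2 * t + 1 by omega]
          ring
        rw [this]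
        exact dvd_mul_right _ _)
      hPd (by omega) hX j (by omega)
    set H : ℤ := (((12 * u + 1 : ℕ) : ℤ) * (t + 22 * u : ℕ) * (4 * (p : ℤ)) ^ (t + 22 * u)) ^ 5 with hH
    have hH0 : 0 ≤ H := by positivity
    have hs := hSIZ hSer p q w H t (t + 12 * u) (12 * u) P Q hpZ hpqZ rfl hwa hH0 hPd hQd hQb hPb j
      (by omega)
    have hlow : (q : ℤ) ^ (t + 22 * u - j) ≤
        |PowerSeries.coeff j (Eh p q w (t + 12 * u) P Q)| :=
      Int.le_of_dvd (abs_pos.2 hj0) ((dvd_abs _ _).2 hd)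
    have hcomb := hlow.trans hs
    have hqpos : (0 : ℤ) < q := by omega
    -- multiply by `q ^ j`
    have h5 : (q : ℤ) ^ (t + 22 * u) ≤ 6 * (((t + 12 * u : ℕ) : ℤ) + 1) ^ 2 * H * (4 * p) ^ (t + 12 * u) *
        (2 * q) ^ (t + 12 * u) * 4 ^ (2 * u + 3) * q ^ (2 * (2 * u + 3)) := by
      calc (q : ℤ) ^ (t + 22 * u) = q ^ (t + 22 * u - j) * q ^ j := by
            rw [← pow_add, Nat.sub_add_cancel (by omega)]
        _ ≤ (6 * (((t + 12 * u : ℕ) : ℤ) + 1) ^ 2 * H * (4 * p) ^ (t + 12 * u) *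
            (2 * q) ^ (t + 12 * u) * (4 * q) ^ j) * q ^ j :=
            mul_le_mul_of_nonneg_right hcomb (by positivity)
        _ = 6 * (((t + 12 * u : ℕ) : ℤ) + 1) ^ 2 * H * (4 * p) ^ (t + 12 * u) *
            (2 * q) ^ (t + 12 * u) * (4 ^ j * q ^ (2 * j)) := by
            rw [mul_pow 4 (q : ℤ) j]; ring
        _ ≤ 6 * (((t + 12 * u : ℕ) : ℤ) + 1) ^ 2 * H * (4 * p) ^ (t + 12 * u) *
            (2 * q) ^ (t + 12 * u) * (4 ^ (2 * u + 3) * q ^ (2 * (2 * u + 3))) := by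
            apply mul_le_mul_of_nonneg_left _ (by positivity)
            have a1 : (4 : ℤ) ^ j ≤ 4 ^ (2 * u + 3) := pow_le_pow_right₀ (by norm_num) hj2
            have a2 : (q : ℤ) ^ (2 * j) ≤ q ^ (2 * (2 * u + 3)) :=
              pow_le_pow_right₀ (by omega) (by omega)
            exact mul_le_mul a1 a2 (by positivity) (by positivity)
        _ = _ := by ring
    have h6 := hNUM u t p q hu3 hu1 hu2 hp hcon
    have h7 : ((6 * (t + 12 * u + 1) ^ 2 * ((12 * u + 1) * (t + 22 * u) * (4 * p) ^ (t + 22 * u)) ^ 5 *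
      (4 * p) ^ (t + 12 * u) * (2 * q) ^ (t + 12 * u) * 4 ^ (2 * u + 3) * q ^ (2 * (2 * u + 3)) : ℕ) : ℤ) <
        ((q ^ (t + 22 * u) : ℕ) : ℤ) := by exact_mod_cast h6
    rw [hH] at h5
    push_cast at h5 h7
    exact absurd (lt_of_le_of_lt h5 h7) (lt_irrefl _)

end Pool.Agent.Helper84.BT
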