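import Pool.Agent.Helper84.BT.Goals

/-!
# Packet BT-CAN
-/

set_option autoImplicit false

open Finset

namespace Pool.Agent.Helper84.BT.CAN

open Pool.Agent.Helper84.BT

theorem t : S_CAN := by
  intro q T U F hq hU h j
  induction j using Nat.strong_induction_on with
  | _ j ih =>
    intro hj
    have h1 := h j hj
    rw [PowerSeries.coeff_mul, ← Finset.add_sum_erase _ _
      (show ((0, j) : ℕ × ℕ) ∈ antidiagonal j by simp)] at h1
    have h2 : q ^ (T - j) ∣ ∑ x ∈ (antidiagonal j).erase (0, j),
        PowerSeries.coeff x.1 U * PowerSeries.coeff x.2 F := by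
      refine dvd_sum fun x hx => ?_
      rw [mem_erase, HasAntidiagonal.mem_antidiagonal] at hx
      obtain ⟨hx1, hx2⟩ := hx
      have hx3 : x.2 < j := by
        by_contra hcon
        apply hx1
        have e1 : x.1 = 0 := by omega
        have e2 : x.2 = j := by omega
        exact Prod.ext e1 e2
      exact dvd_mul_of_dvd_right ((pow_dvd_pow q (by omega)).trans (ih x.2 hx3 (by omega))) _
    have h3 := (dvd_add_left h2).1 h1
    have h4 : IsCoprime (q ^ (T - j)) (PowerSeries.coeff 0 U) := by
      apply IsCoprime.pow_left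
      rw [PowerSeries.coeff_zero_eq_constantCoeff_apply]
      exact (hq.irreducible.coprime_iff_not_dvd).2 hU
    exact h4.dvd_of_dvd_mul_left h3

end Pool.Agent.Helper84.BT.CAN
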