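import Pool.Agent.Helper84.BT.Goals

/-!
# Packet BT-DIV: divisibility at `X = q`
-/

set_option autoImplicit false

open Finset

namespace Pool.Agent.Helper84.BT.DIV

open Pool.Agent.Helper84.BT
open scoped Polynomial

/-- the filtration -/
def Fil (q : ℤ) (T : ℕ) : Ideal (PowerSeries ℤ) where
  carrier := {F | ∀ j, q ^ (T - j) ∣ PowerSeries.coeff j F}
  add_mem' := fun {a b} ha hb j => by
    rw [map_add]; exact dvd_add (ha j) (hb j)
  zero_mem' := fun j => by simp
  smul_mem' := fun U F hF j => by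
    rw [smul_eq_mul, PowerSeries.coeff_mul]
    refine dvd_sum fun x hx => ?_
    have h1 : x.1 + x.2 = j := by simpa using hx
    exact dvd_mul_of_dvd_right ((pow_dvd_pow q (by omega)).trans (hF x.2)) _

lemma mem_Fil {q : ℤ} {T : ℕ} {F : PowerSeries ℤ} :
    F ∈ Fil q T ↔ ∀ j, q ^ (T - j) ∣ PowerSeries.coeff j F := Iff.rfl

lemma mem_Fil' {q : ℤ} {T : ℕ} {F : PowerSeries ℤ} :
    F ∈ Fil q T ↔ ∀ j ≤ T, q ^ (T - j) ∣ PowerSeries.coeff j F := by
  rw [mem_Fil]
  constructor
  · intro h j _; exact h j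
  · intro h j
    by_cases hj : j ≤ T
    · exact h j hj
    · rw [show T - j = 0 by omega]; simp

lemma C_mem {q : ℤ} {T : ℕ} {c : ℤ} (h : q ^ T ∣ c) : PowerSeries.C c ∈ Fil q T := by
  intro j
  rw [PowerSeries.coeff_C]
  split_ifs with hj
  · exact (pow_dvd_pow q (Nat.sub_le _ _)).trans h
  · exact dvd_zero _

lemma mul_mem_succ {q : ℤ} {T : ℕ} {F G : PowerSeries ℤ} (hG : q ∣ PowerSeries.constantCoeff G)
    (hF : F ∈ Fil q T) : G * F ∈ Fil q (T + 1) := by
  rw [mem_Fil']
  intro j hj
  rw [PowerSeries.coeff_mul]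
  refine dvd_sum fun x hx => ?_
  have h1 : x.1 + x.2 = j := by simpa using hx
  by_cases h0 : x.1 = 0
  · have hF2 := hF x.2
    rw [h0, PowerSeries.coeff_zero_eq_constantCoeff_apply]
    by_cases hjT : j ≤ T
    · rw [show T + 1 - j = (T - x.2) + 1 by omega, pow_succ, mul_comm]
      exact mul_dvd_mul hG hF2
    · rw [show T + 1 - j = 0 by omega]; simp
  · exact dvd_mul_of_dvd_right ((pow_dvd_pow q (by omega)).trans (hF x.2)) _

lemma pow_mem {q : ℤ} {G : PowerSeries ℤ} (hG : q ∣ PowerSeries.constantCoeff G) (T : ℕ) :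
    G ^ T ∈ Fil q T := by
  induction T with
  | zero => rw [mem_Fil']; intro j hj; simp
  | succ T ih => rw [pow_succ, mul_comm]; exact mul_mem_succ hG ih

lemma sc_comp (p : ℤ) (m : ℕ) (F : ℤ[X]) (hF : F.natDegree ≤ m) :
    (sc p m F).comp (Polynomial.C (4 * p) * Polynomial.X) = Polynomial.C ((4 * p) ^ m) * F := by
  unfold sc
  rw [Polynomial.sum_comp]
  conv_rhs => rw [Polynomial.as_sum_range_C_mul_X_pow' (p := F) (n := m + 1) (by omega), mul_sum]
  refine sum_congr rfl fun n hn => ?_
  have hn' : n ≤ m := by rw [mem_range] at hn; omega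
  rw [Polynomial.mul_comp, Polynomial.C_comp, Polynomial.X_pow_comp,
    mul_pow (Polynomial.C (4 * p)) Polynomial.X n, ← Polynomial.C_pow,
    ← mul_assoc, ← mul_assoc, ← Polynomial.C_mul, ← Polynomial.C_mul]
  congr 2
  rw [mul_assoc, ← pow_add, Nat.sub_add_cancel hn']
  ring

lemma comp_inj {r : ℤ} (hr : r ≠ 0) {F G : ℤ[X]}
    (h : F.comp (Polynomial.C r * Polynomial.X) = G.comp (Polynomial.C r * Polynomial.X)) : F = G := by
  ext n
  have h1 := congrArg (fun P => Polynomial.coeff P n) h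
  simp only [Polynomial.comp_C_mul_X_coeff] at h1
  exact mul_right_cancel₀ (pow_ne_zero n hr) h1

/-- a polynomial divisible by `X ^ T` as a power series -/
lemma exists_quot {F : ℤ[X]} {T N : ℕ} (h : (PowerSeries.X : PowerSeries ℤ) ^ T ∣ (F : PowerSeries ℤ))
    (hN : F.natDegree ≤ T + N) : ∃ L : ℤ[X], F = Polynomial.X ^ T * L ∧ L.natDegree ≤ N := by
  have h1 : (Polynomial.X : ℤ[X]) ^ T ∣ F := by
    rw [Polynomial.X_pow_dvd_iff]
    intro d hd
    rw [PowerSeries.X_pow_dvd_iff] at h
    simpa using h d hd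
  obtain ⟨L, rfl⟩ := h1
  refine ⟨L, rfl, ?_⟩
  by_cases hL : L = 0
  · rw [hL]; simp
  · rw [Polynomial.natDegree_X_pow_mul _ hL] at hN
    omega

theorem t : S_DIV := by
  intro hSer hCAN p q w T m P Q hp hpq hq hqw hqT hPd hQd hX
  rw [← mem_Fil']
  rcases T with _ | T'
  · rw [mem_Fil']; intro j hj; rw [Nat.zero_sub]; simp
  set T := T' + 1 with hTdef
  have hr0 : (4 * p : ℤ) ≠ 0 := by omega
  set g := Sr (-1) (-p) with hg
  set θ := Sr (q - 1) (q - p) with hθ
  obtain ⟨hg0, hg2, -, -⟩ := hSer (-1) (-p)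
  obtain ⟨-, hθ2, -, -⟩ := hSer (q - 1) (q - p)
  rw [← hg] at hg0 hg2
  rw [← hθ] at hθ2
  set ρ : ℤ := (4 * p) ^ T' with hρ
  -- facts on `q`
  have hq2 : ¬ q ∣ 2 := fun h => by
    have := Int.le_of_dvd (by norm_num) h
    omega
  have hqp : ¬ q ∣ p := fun h => by
    have := Int.le_of_dvd (by omega) h
    omega
  have hq4 : ¬ q ∣ 4 * p := fun h => by
    rcases hq.dvd_or_dvd h with h | h
    · have : q ∣ 2 * 2 := by simpa using h
      rcases hq.dvd_or_dvd this with h | h <;> exact hq2 h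
    · exact hqp h
  have hqρ : ¬ q ∣ ρ := fun h => hq4 (hq.dvd_of_dvd_pow h)
  have hq1 : ¬ q ∣ q - 1 := fun h => by
    have h2 : q ∣ 1 := by
      have := dvd_sub (dvd_refl q) h
      simpa using this
    exact hq.not_unit (isUnit_of_dvd_one h2)
  -- the polynomial `φ`
  set φ : ℤ[X] := ph p q with hφ
  have hφ0 : q ∣ PowerSeries.constantCoeff (φ : PowerSeries ℤ) := by
    rw [hφ]; unfold ph; simp
  have hφT : ((φ : PowerSeries ℤ)) ^ T ∈ Fil q T := pow_mem hφ0 T
  have hφ1 : (1 : PowerSeries ℤ) - (φ : PowerSeries ℤ) = - (PowerSeries.C (q - 1) * la (q - p)) := by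
    rw [hφ]; unfold ph la
    push_cast
    simp only [map_mul, map_sub, map_one]
    ring
  have hφ2 : PowerSeries.C p - (φ : PowerSeries ℤ) = - (PowerSeries.C (q - p) * la (q - 1)) := by
    rw [hφ]; unfold ph la
    push_cast
    simp only [map_mul, map_sub, map_one]
    ring
  -- truncation
  set G : ℤ[X] := PowerSeries.trunc T g with hG
  have hGd : G.natDegree ≤ T' := by
    rw [hG]
    exact Nat.lt_succ_iff.mp (PowerSeries.natDegree_trunc_lt g T')
  have hgG : (PowerSeries.X : PowerSeries ℤ) ^ T ∣ g - (G : PowerSeries ℤ) := by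
    rw [PowerSeries.X_pow_dvd_iff]
    intro n hn
    rw [map_sub, hG, Polynomial.coeff_coe, PowerSeries.coeff_trunc, if_pos hn, sub_self]
  -- `K`
  obtain ⟨K, hK, hKd⟩ : ∃ K : ℤ[X], G ^ 2 * (1 + Polynomial.C (4 * -p) * Polynomial.X) -
      (1 + Polynomial.C (4 * -1) * Polynomial.X) = Polynomial.X ^ T * K ∧ K.natDegree ≤ T' := by
    apply exists_quot
    · have e1 : (((G ^ 2 * (1 + Polynomial.C (4 * -p) * Polynomial.X) -
          (1 + Polynomial.C (4 * -1) * Polynomial.X) : ℤ[X])) : PowerSeries ℤ) =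
          -((g - (G : PowerSeries ℤ)) * ((g + (G : PowerSeries ℤ)) * la (-p))) := by
        have : (g - (G : PowerSeries ℤ)) * ((g + (G : PowerSeries ℤ)) * la (-p)) =
          g ^ 2 * la (-p) - (G : PowerSeries ℤ) ^ 2 * la (-p) := by ring
        rw [this, hg2]
        unfold la
        push_cast
        ring
      rw [e1]
      exact (dvd_mul_of_dvd_left hgG _).neg_right
    · have d1 : (1 + Polynomial.C (4 * -p) * Polynomial.X : ℤ[X]).natDegree ≤ 1 := by
        compute_degree
      have d2 : (1 + Polynomial.C (4 * -1) * Polynomial.X : ℤ[X]).natDegree ≤ 1 := by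
        compute_degree
      have d3 : (G ^ 2).natDegree ≤ 2 * T' := Polynomial.natDegree_pow_le_of_le 2 hGd
      refine (Polynomial.natDegree_sub_le _ _).trans (max_le ?_ (d2.trans (by omega)))
      refine Polynomial.natDegree_mul_le.trans ?_
      omega
  -- the scaled identity
  set Gs := sc p T' G with hGs
  set Ks := sc p T' K with hKs
  have hA1 : Polynomial.C (4 * p) * Gs ^ 2 * (1 - Polynomial.X) -
      Polynomial.C (4 * ρ ^ 2) * (Polynomial.C p - Polynomial.X) = Polynomial.X ^ T * Ks := by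
    apply comp_inj hr0
    simp only [Polynomial.sub_comp, Polynomial.mul_comp, Polynomial.pow_comp, Polynomial.C_comp,
      Polynomial.X_comp, Polynomial.one_comp]
    rw [hGs, hKs, sc_comp p T' G hGd, sc_comp p T' K hKd]
    have e1 : Polynomial.C (4 * p) * (Polynomial.C ((4 * p) ^ T') * G) ^ 2 *
        (1 - Polynomial.C (4 * p) * Polynomial.X) -
        Polynomial.C (4 * ρ ^ 2) * (Polynomial.C p - Polynomial.C (4 * p) * Polynomial.X) =
        Polynomial.C (4 * p) * Polynomial.C (ρ ^ 2) *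
          (G ^ 2 * (1 + Polynomial.C (4 * -p) * Polynomial.X) -
            (1 + Polynomial.C (4 * -1) * Polynomial.X)) := by
      rw [← hρ]
      simp only [map_mul, map_pow, map_neg, map_one]
      ring
    rw [e1, hK, mul_pow, ← Polynomial.C_pow, ← hρ, hTdef, pow_succ (4 * p) T', ← hρ]
    simp only [map_mul, map_pow]
    ring
  set Gh : PowerSeries ℤ := ((Gs.comp φ : ℤ[X]) : PowerSeries ℤ) with hGh
  have hA2 : PowerSeries.C (4 * p) * Gh ^ 2 * (1 - (φ : PowerSeries ℤ)) -
      PowerSeries.C (4 * ρ ^ 2) * (PowerSeries.C p - (φ : PowerSeries ℤ)) ∈ Fil q T := by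
    have h1 := congrArg (fun F : ℤ[X] => ((F.comp φ : ℤ[X]) : PowerSeries ℤ)) hA1
    simp only [Polynomial.sub_comp, Polynomial.mul_comp, Polynomial.pow_comp, Polynomial.C_comp,
      Polynomial.X_comp, Polynomial.one_comp] at h1
    push_cast at h1
    rw [← hGh] at h1
    rw [h1]
    exact Ideal.mul_mem_right _ _ hφT
  rw [hφ1, hφ2] at hA2
  -- (A)
  have hA : Gh - PowerSeries.C (ρ * w) * θ ∈ Fil q T := by
    rw [mem_Fil']
    apply hCAN q T (PowerSeries.C (4 * p * (q - 1)) * la (q - p) * (Gh + PowerSeries.C (ρ * w) * θ)) _ hq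
    · intro hd
      have hc : PowerSeries.constantCoeff (PowerSeries.C (4 * p * (q - 1)) * la (q - p) *
          (Gh + PowerSeries.C (ρ * w) * θ)) = 4 * p * (q - 1) * (Gs.eval q + ρ * w) := by
        have c1 : PowerSeries.constantCoeff (la (q - p)) = 1 := by unfold la; simp
        have c2 : PowerSeries.constantCoeff Gh = Gs.eval q := by
          rw [hGh, ← PowerSeries.coeff_zero_eq_constantCoeff_apply, Polynomial.coeff_coe,
            Polynomial.coeff_zero_eq_eval_zero, Polynomial.eval_comp, hφ]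
          unfold ph
          simp
        have c3 : PowerSeries.constantCoeff θ = 1 := (hSer (q - 1) (q - p)).1
        rw [map_mul, map_mul, map_add, map_mul PowerSeries.constantCoeff (PowerSeries.C (ρ * w)) θ,
          c1, c2, c3, PowerSeries.constantCoeff_C, PowerSeries.constantCoeff_C]
        ring
      rw [hc] at hd
      rcases hq.dvd_or_dvd hd with hd | hd
      · rcases hq.dvd_or_dvd hd with hd | hd
        · exact hq4 hd
        · exact hq1 hd
      · have d1 : q ∣ Gs.eval q - Gs.eval 0 := by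
          have := Polynomial.sub_dvd_eval_sub q 0 Gs
          simpa using this
        have d2 : Gs.eval 0 = ρ := by
          rw [← Polynomial.coeff_zero_eq_eval_zero, hGs]
          unfold sc
          have hG0 : G.coeff 0 = 1 := by
            rw [hG, PowerSeries.coeff_trunc, if_pos (by omega),
              PowerSeries.coeff_zero_eq_constantCoeff_apply, hg0]
          rw [Polynomial.finsetSum_coeff, sum_eq_single 0]
          · rw [Polynomial.coeff_C_mul, pow_zero, Polynomial.coeff_one_zero, mul_one, hG0, hρ,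
              Nat.sub_zero, one_mul]
          · intro b _ hb
            rw [Polynomial.coeff_C_mul, Polynomial.coeff_X_pow]
            simp [Ne.symm hb]
          · simp
        rw [d2] at d1
        have d3 : q ∣ 2 * ρ := by
          have e1 : 2 * ρ = (Gs.eval q + ρ * w) - (Gs.eval q - ρ) - ρ * (w - 1) := by ring
          rw [e1]
          exact dvd_sub (dvd_sub hd d1) (dvd_mul_of_dvd_right hqw _)
        rcases hq.dvd_or_dvd d3 with h | h
        · exact hq2 h
        · exact hqρ h
    · rw [← mem_Fil']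
      have e1 : PowerSeries.C (4 * p * (q - 1)) * la (q - p) * (Gh + PowerSeries.C (ρ * w) * θ) *
          (Gh - PowerSeries.C (ρ * w) * θ) =
          -(PowerSeries.C (4 * p) * Gh ^ 2 * -(PowerSeries.C (q - 1) * la (q - p)) -
            PowerSeries.C (4 * ρ ^ 2) * -(PowerSeries.C (q - p) * la (q - 1))) -
          PowerSeries.C (4 * ρ ^ 2 * ((q - 1) * p * w ^ 2 - (q - p))) * la (q - 1) := by
        have e2 : PowerSeries.C (4 * p * (q - 1)) * la (q - p) * (Gh + PowerSeries.C (ρ * w) * θ) *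
          (Gh - PowerSeries.C (ρ * w) * θ) = PowerSeries.C (4 * p * (q - 1)) * la (q - p) * Gh ^ 2 -
            PowerSeries.C (4 * p * (q - 1)) * PowerSeries.C (ρ * w) ^ 2 * (θ ^ 2 * la (q - p)) := by
          ring
        rw [e2, hθ2]
        simp only [map_mul, map_sub, map_pow, map_one]
        ring
      rw [e1]
      refine sub_mem (neg_mem hA2) (Ideal.mul_mem_right _ _ (C_mem ?_))
      exact dvd_mul_of_dvd_right hqT _
  -- (B)
  obtain ⟨L, hL, hLd⟩ : ∃ L : ℤ[X], P - G * Q = Polynomial.X ^ T * L ∧ L.natDegree ≤ m := by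
    apply exists_quot
    · have e1 : ((P - G * Q : ℤ[X]) : PowerSeries ℤ) = ((P : PowerSeries ℤ) - g * (Q : PowerSeries ℤ)) +
          (g - (G : PowerSeries ℤ)) * (Q : PowerSeries ℤ) := by
        push_cast; ring
      rw [e1]
      exact dvd_add hX (dvd_mul_of_dvd_left hgG _)
    · refine (Polynomial.natDegree_sub_le _ _).trans (max_le (by omega) ?_)
      refine Polynomial.natDegree_mul_le.trans ?_
      omega
  have hB1 : Polynomial.C (4 * p) * (Polynomial.C ρ * sc p m P - Gs * sc p m Q) =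
      Polynomial.X ^ T * sc p m L := by
    apply comp_inj hr0
    simp only [Polynomial.sub_comp, Polynomial.mul_comp, Polynomial.pow_comp, Polynomial.C_comp,
      Polynomial.X_comp]
    rw [hGs, sc_comp p T' G hGd, sc_comp p m P hPd, sc_comp p m Q hQd, sc_comp p m L hLd]
    have e1 : Polynomial.C (4 * p) * (Polynomial.C ρ * (Polynomial.C ((4 * p) ^ m) * P) -
        Polynomial.C ((4 * p) ^ T') * G * (Polynomial.C ((4 * p) ^ m) * Q)) =
        Polynomial.C (4 * p) * Polynomial.C ρ * Polynomial.C ((4 * p) ^ m) * (P - G * Q) := by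
      rw [← hρ]; ring
    have e2 : (Polynomial.C (4 * p) * Polynomial.X : ℤ[X]) ^ T =
        Polynomial.C ρ * Polynomial.C (4 * p) * Polynomial.X ^ T := by
      rw [mul_pow, hTdef, pow_succ (Polynomial.C (4 * p)) T', ← Polynomial.C_pow, ← hρ]
    rw [e1, hL, e2]
    ring
  set Ph : PowerSeries ℤ := (((sc p m P).comp φ : ℤ[X]) : PowerSeries ℤ) with hPh
  set Qh : PowerSeries ℤ := (((sc p m Q).comp φ : ℤ[X]) : PowerSeries ℤ) with hQh
  have hB2 : PowerSeries.C (4 * p) * (PowerSeries.C ρ * Ph - Gh * Qh) ∈ Fil q T := by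
    have h1 := congrArg (fun F : ℤ[X] => ((F.comp φ : ℤ[X]) : PowerSeries ℤ)) hB1
    simp only [Polynomial.sub_comp, Polynomial.mul_comp, Polynomial.pow_comp, Polynomial.C_comp,
      Polynomial.X_comp] at h1
    push_cast at h1
    rw [← hGh, ← hPh, ← hQh] at h1
    rw [h1]
    exact Ideal.mul_mem_right _ _ hφT
  rw [mem_Fil']
  apply hCAN q T (PowerSeries.C (4 * p * ρ)) _ hq
  · rw [PowerSeries.constantCoeff_C]
    intro h
    rcases hq.dvd_or_dvd h with h | h
    · exact hq4 h
    · exact hqρ h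
  · rw [← mem_Fil']
    have e1 : PowerSeries.C (4 * p * ρ) * Eh p q w m P Q =
        PowerSeries.C (4 * p) * (PowerSeries.C ρ * Ph - Gh * Qh) +
          PowerSeries.C (4 * p) * Qh * (Gh - PowerSeries.C (ρ * w) * θ) := by
      unfold Eh
      rw [← hφ, ← hPh, ← hQh, ← hθ]
      simp only [map_mul]
      ring
    rw [e1]
    exact add_mem hB2 (Ideal.mul_mem_left _ _ hA)

end Pool.Agent.Helper84.BT.DIV
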