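import Pool.Agent.Helper84.BT.TH1

/-!
# Project BT: the polylogarithmic count, ordered by the smaller prime
-/

set_option autoImplicit false

open Finset

namespace Pool.Agent.Helper84.BT

open Pool.Agent.Helper7.BM (sg)

/-- the solutions with larger prime `q ≤ X` and odd common value -/
def SolQ (X : ℕ) : Set (ℕ × ℕ × ℕ × ℕ) :=
  {s : ℕ × ℕ × ℕ × ℕ | s.1.Prime ∧ s.2.2.1.Prime ∧ s.1 < s.2.2.1 ∧ s.2.2.1 ≤ X ∧ 1 ≤ s.2.1 ∧ 1 ≤ s.2.2.2 ∧
      sg s.1 s.2.1 = sg s.2.2.1 s.2.2.2 ∧ Odd (sg s.1 s.2.1)}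

/-- the solutions with smaller prime `p ≤ X` and odd common value -/
def SolP (X : ℕ) : Set (ℕ × ℕ × ℕ × ℕ) :=
  {s : ℕ × ℕ × ℕ × ℕ | s.1.Prime ∧ s.2.2.1.Prime ∧ s.1 < s.2.2.1 ∧ s.1 ≤ X ∧ 1 ≤ s.2.1 ∧ 1 ≤ s.2.2.2 ∧
      sg s.1 s.2.1 = sg s.2.2.1 s.2.2.2 ∧ Odd (sg s.1 s.2.1)}

theorem th1' (hEVN : S_EVN) (hPAR : S_PAR) (hTH1 : S_TH1) {p q a b : ℕ} (hp : p.Prime) (hq : q.Prime)
    (hpq : p < q) (ha : 1 ≤ a) (hb : 1 ≤ b) (hN : sg p a = sg q b) (hodd : Odd (sg p a)) :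
    q < (4 * p) ^ 100 := by
  have hpar := hPAR hEVN p q a b hp hq hpq ha hb hN
  obtain ⟨s, t, hs, ht, rfl, rfl⟩ := hpar.2 (hpar.1.1 hodd)
  exact hTH1 p q s t hp.two_le hpq hq hs ht hN

theorem polp (hEVN : S_EVN) (hPAR : S_PAR) (hTH1 : S_TH1)
    (hPOL : ∃ C : ℝ, ∀ X : ℕ, 3 ≤ X → (SolQ X).Finite ∧
      (((SolQ X).ncard : ℕ) : ℝ) ≤ C * Real.log X ^ C) :
    ∃ C : ℝ, ∀ X : ℕ, 3 ≤ X → (SolP X).Finite ∧
      (((SolP X).ncard : ℕ) : ℝ) ≤ C * Real.log X ^ C := by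
  obtain ⟨C, hC⟩ := hPOL
  set K : ℝ := max C 1 with hK
  have hK1 : 1 ≤ K := le_max_right _ _
  have hCK : C ≤ K := le_max_left _ _
  refine ⟨K * 300 ^ K, ?_⟩
  intro X hX
  set Y := (4 * X) ^ 100 with hY
  have hY3 : 3 ≤ Y := by
    calc 3 ≤ (4 * X) ^ 1 := by rw [pow_one]; omega
      _ ≤ (4 * X) ^ 100 := Nat.pow_le_pow_right (by omega) (by norm_num)
  obtain ⟨hf, hc⟩ := hC Y hY3
  have hsub : SolP X ⊆ SolQ Y := by
    rintro ⟨p, a, q, b⟩ ⟨h1, h2, h3, h4, h5, h6, h7, h8⟩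
    refine ⟨h1, h2, h3, ?_, h5, h6, h7, h8⟩
    refine (th1' hEVN hPAR hTH1 h1 h2 h3 h5 h6 h7 h8).le.trans ?_
    exact Nat.pow_le_pow_left (Nat.mul_le_mul_left 4 h4) 100
  refine ⟨hf.subset hsub, ?_⟩
  have hXR : (3 : ℝ) ≤ X := by exact_mod_cast hX
  have hL1 : 1 ≤ Real.log X := by
    rw [Real.le_log_iff_exp_le (by positivity)]
    have := Real.exp_one_lt_d9
    linarith
  have hYR : (Y : ℝ) = (4 * (X : ℝ)) ^ 100 := by rw [hY]; push_cast; ring
  have hlogY : Real.log Y ≤ 300 * Real.log X := by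
    rw [hYR, Real.log_pow]
    have h2 : Real.log (4 * X) ≤ 3 * Real.log X := by
      have : Real.log (4 * X) ≤ Real.log ((X : ℝ) ^ 3) := by
        apply Real.log_le_log (by positivity)
        nlinarith [mul_le_mul hXR hXR (by norm_num) (by positivity)]
      rw [Real.log_pow] at this
      push_cast at this
      exact this
    push_cast
    linarith
  have hlogY1 : 1 ≤ Real.log Y := by
    rw [Real.le_log_iff_exp_le (by positivity)]
    have := Real.exp_one_lt_d9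
    have h3 : (3 : ℝ) ≤ Y := by exact_mod_cast hY3
    linarith
  calc (((SolP X).ncard : ℕ) : ℝ) ≤ (((SolQ Y).ncard : ℕ) : ℝ) := by
        exact_mod_cast Set.ncard_le_ncard hsub hf
    _ ≤ C * Real.log Y ^ C := hc
    _ ≤ K * Real.log Y ^ K := by
        apply mul_le_mul hCK (Real.rpow_le_rpow_of_exponent_le hlogY1 hCK) (by positivity)
          (by linarith)
    _ ≤ K * (300 * Real.log X) ^ K := by
        apply mul_le_mul_of_nonneg_left _ (by linarith)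
        exact Real.rpow_le_rpow (by linarith) hlogY (by linarith)
    _ = K * 300 ^ K * Real.log X ^ K := by
        rw [Real.mul_rpow (by norm_num) (by linarith)]; ring
    _ ≤ K * 300 ^ K * Real.log X ^ (K * 300 ^ K) := by
        apply mul_le_mul_of_nonneg_left _ (by positivity)
        apply Real.rpow_le_rpow_of_exponent_le hL1
        have : (1 : ℝ) ≤ 300 ^ K := Real.one_le_rpow (by norm_num) (by linarith)
        nlinarith

end Pool.Agent.Helper84.BT
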