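import Pool.Agent.Helper84.BT.TH1

/-!
# Project BT: Theorem 2 from the packets
-/

set_option autoImplicit false

open Finset

namespace Pool.Agent.Helper84.BT

open Pool.Agent.Helper7.BM (sg)

theorem th2 (hCB : S_CB) (hRSQ : S_RSQ) (hRVA : S_RVA) (hRUN : S_RUN) (hEVN : S_EVN) (hPAR : S_PAR)
    (hEQN : S_EQN) (hTH1 : S_TH1) : S_TH2 := by
  intro p q a b hp hq hpq ha hb hN heven
  obtain ⟨s, t, hs, ht, rfl, rfl⟩ := (hPAR hEVN p q a b hp hq hpq ha hb hN).2 heven
  have hp2 := hp.two_le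
  obtain ⟨-, hwt, hts, -⟩ := hEQN p q s t hp2 hpq hq hs ht hN
  have hT := hTH1 p q s t hp2 hpq hq hs ht hN
  have h1 : p ^ s < p ^ (300 * t) := by
    calc p ^ s < q ^ t := hwt
      _ ≤ ((4 * p) ^ 100) ^ t := Nat.pow_le_pow_left hT.le t
      _ ≤ ((p ^ 3) ^ 100) ^ t := by
          apply Nat.pow_le_pow_left
          apply Nat.pow_le_pow_left
          nlinarith [Nat.mul_le_mul hp2 hp2]
      _ = p ^ (300 * t) := by
          rw [← pow_mul, ← pow_mul]
          congr 1; ring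
  have h2 : s < 300 * t := (Nat.pow_lt_pow_iff_right hp.one_lt).1 h1
  refine ⟨by omega, ?_⟩
  have h3 := hRUN hCB hRSQ hRVA p q s t hp2 hpq ht hts hN
  calc q < (4 * p) ^ 100 := hT
    _ ≤ (4 ^ (300 * t)) ^ 100 := by
        apply Nat.pow_le_pow_left
        calc 4 * p ≤ 4 * 4 ^ s := Nat.mul_le_mul_left _ h3
          _ = 4 ^ (s + 1) := by rw [pow_succ]; ring
          _ ≤ 4 ^ (300 * t) := Nat.pow_le_pow_right (by norm_num) h2
    _ = 2 ^ (30000 * (2 * t)) := by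
        rw [← pow_mul, show (4 : ℕ) = 2 ^ 2 by norm_num, ← pow_mul]
        congr 1; ring

end Pool.Agent.Helper84.BT
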