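import Pool.Agent.Helper84.BT.TH1

/-!
# Project BT: Theorem 3 from the packets and the bound for the exponents of project BM
-/

set_option autoImplicit false

open Finset

namespace Pool.Agent.Helper84.BT

open Pool.Agent.Helper7.BM (sg)

theorem sg_lt (x m : ℕ) (hx : 2 ≤ x) : sg x m < 2 * x ^ m := by
  unfold sg
  induction m with
  | zero => simp
  | succ m ih =>
    rw [sum_range_succ]
    calc ∑ i ∈ range (m + 1), x ^ i + x ^ (m + 1) < 2 * x ^ m + x ^ (m + 1) := by omega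
      _ ≤ x * x ^ m + x ^ (m + 1) := by gcongr
      _ = 2 * x ^ (m + 1) := by ring

theorem th3 (hE : ∃ C : ℝ, 0 < C ∧ ∀ p q a b : ℕ, p.Prime → q.Prime → p < q → 1 ≤ a → 1 ≤ b →
      sg p a = sg q b → (a : ℝ) ≤ C * Real.log q ^ 115) (hEVN : S_EVN) (hPAR : S_PAR)
    (hTH1 : S_TH1) : S_TH3 := by
  obtain ⟨C, hC, hE⟩ := hE
  refine ⟨2 * (C * 300 ^ 115) + 2, ?_⟩
  intro p q a b hp hq hpq ha hb hN hodd
  have hpar := hPAR hEVN p q a b hp hq hpq ha hb hN
  obtain ⟨s, t, hs, ht, rfl, rfl⟩ := hpar.2 (hpar.1.1 hodd)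
  have hp2 := hp.two_le
  have hT := hTH1 p q s t hp2 hpq hq hs ht hN
  refine ⟨hT, ?_⟩
  have hA := hE p q (2 * s) (2 * t) hp hq hpq ha hb hN
  set A := 2 * s with hAdef
  have hpR : (2 : ℝ) ≤ p := by exact_mod_cast hp2
  have hqR : (2 : ℝ) ≤ q := by exact_mod_cast hq.two_le
  set L := Real.log (2 * p) with hL
  have hL1 : 1 ≤ L := by
    rw [hL, Real.le_log_iff_exp_le (by positivity)]
    have := Real.exp_one_lt_d9
    linarith
  have hlog4 : Real.log (4 * p) ≤ 3 * L := by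
    have : Real.log (4 * p) ≤ Real.log ((2 * (p : ℝ)) ^ 3) := by
      apply Real.log_le_log (by positivity)
      have h1 : (1 : ℝ) ≤ 2 * (p * p) := by nlinarith
      calc 4 * (p : ℝ) = 4 * p * 1 := by ring
        _ ≤ 4 * p * (2 * (p * p)) := by gcongr
        _ = (2 * (p : ℝ)) ^ 3 := by ring
    rw [Real.log_pow] at this
    push_cast at this
    exact this
  have hq1 : Real.log q ≤ 300 * L := by
    have h1 : Real.log q ≤ Real.log ((4 * (p : ℝ)) ^ 100) := by
      apply Real.log_le_log (by linarith)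
      exact_mod_cast hT.le
    rw [Real.log_pow] at h1
    push_cast at h1
    linarith
  have hq0 : 0 ≤ Real.log q := Real.log_nonneg (by linarith)
  have hA2 : (A : ℝ) ≤ C * 300 ^ 115 * L ^ 115 := by
    calc (A : ℝ) ≤ C * Real.log q ^ 115 := hA
      _ ≤ C * (300 * L) ^ 115 := by gcongr
      _ = C * 300 ^ 115 * L ^ 115 := by rw [mul_pow]; ring
  have hlogp : Real.log p ≤ L := by
    rw [hL]
    apply Real.log_le_log (by linarith)
    linarith
  have hlogp0 : 0 ≤ Real.log p := Real.log_nonneg (by linarith)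
  have h2 : (sg p A : ℝ) ≤ 2 * (p : ℝ) ^ A := by exact_mod_cast (sg_lt p A hp2).le
  refine h2.trans ?_
  rw [← Real.log_le_iff_le_exp (by positivity), Real.log_mul (by norm_num) (by positivity),
    Real.log_pow]
  have h3 : (A : ℝ) * Real.log p ≤ C * 300 ^ 115 * L ^ 115 * L := by
    apply mul_le_mul hA2 hlogp hlogp0 (by positivity)
  have h4 : Real.log 2 ≤ 1 := by
    have := Real.log_two_lt_d9
    linarith
  have h5 : 1 ≤ L ^ 116 := one_le_pow₀ hL1
  have h6 : 0 ≤ C * 300 ^ 115 * L ^ 116 := by positivity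
  calc Real.log 2 + A * Real.log p ≤ 1 + C * 300 ^ 115 * L ^ 115 * L := by linarith
    _ = 1 + C * 300 ^ 115 * L ^ 116 := by rw [mul_assoc, ← pow_succ]
    _ ≤ (2 * (C * 300 ^ 115) + 2) * L ^ 116 := by linarith

end Pool.Agent.Helper84.BT
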