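import Pool.Agent.Helper84.BT.TH1
import Pool.Agent.Helper84.BT.TH2
import Pool.Agent.Helper84.BT.TH3
import Pool.Agent.Helper84.BT.POLP
import Pool.Agent.Helper84.BT.DIV
import Pool.Agent.Helper2.BT.SG5
import Pool.Agent.Helper3.BT.SIZ
import Pool.Agent.Helper12.BT.AUXA
import Pool.Agent.Helper13.BT.RVA
import Pool.Agent.Helper84.BT.CAN
import Pool.Agent.Helper20.BT.NUM
import Pool.Agent.Helper31.BT.TAY
import Pool.Agent.Helper32.BT.CB
import Pool.Agent.Helper32.BT.RUN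
import Pool.Agent.Helper39.BT.PAR
import Pool.Agent.Helper41.BT.WR
import Pool.Agent.Helper53.BT.SER
import Pool.Agent.Helper64.BT.ZES
import Pool.Agent.Helper78.BT.DNZ
import Pool.Agent.Helper78.BT.EQN
import Pool.Agent.Helper78.BT.POS
import Pool.Agent.Helper79.BT.POL
import Pool.Agent.Helper87.BT.RSQ
import Pool.Agent.Helper89.BT.EVN
import Pool.Agent.Helper7.BM.Main

/-!
# Project BT (MP_57df85_nt): all packets put together
-/

set_option autoImplicit false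

open Finset

namespace Pool.Agent.Helper84.BT

open Pool.Agent.Helper7.BM (sg)

theorem pSer : SerProp := Helper53.BT.SER.t Helper32.BT.CB.t

/-- Theorem 1 -/
theorem pTH1 : S_TH1 :=
  th1 pSer Helper2.BT.SG5.t Helper12.BT.AUX.t CAN.t DIV.t Helper41.BT.WR.t Helper78.BT.DNZ.t
    Helper64.BT.ZES.t Helper3.BT.SIZ.t Helper20.BT.NUM.t Helper78.BT.POS.t Helper31.BT.TAY.t
    Helper78.BT.EQN.t

/-- Theorem 2 -/
theorem pTH2 : S_TH2 :=
  th2 Helper32.BT.CB.t Helper87.BT.RSQ.t Helper13.BT.RVA.t Helper32.BT.RUN.t Helper89.BT.EVN.t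
    Helper39.BT.PAR.t Helper78.BT.EQN.t pTH1

/-- Theorem 3 -/
theorem pTH3 : S_TH3 := th3 Helper7.BM.pE Helper89.BT.EVN.t Helper39.BT.PAR.t pTH1

theorem pPOL : ∃ C : ℝ, ∀ X : ℕ, 3 ≤ X → (SolQ X).Finite ∧
      (((SolQ X).ncard : ℕ) : ℝ) ≤ C * Real.log X ^ C :=
  Helper79.BT.POL.t Helper7.BM.pE (Helper74.BM.rg Helper28.BM.bin)
    (Helper77.BM.cb Helper7.BM.pDM Helper3.BM.sgpol) Helper59.BM.pp Helper89.BT.EVN.t Helper39.BT.PAR.t
    pTH1

/-- the count, ordered by the smaller prime -/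
theorem pPOLP : ∃ C : ℝ, ∀ X : ℕ, 3 ≤ X → (SolP X).Finite ∧
      (((SolP X).ncard : ℕ) : ℝ) ≤ C * Real.log X ^ C :=
  polp Helper89.BT.EVN.t Helper39.BT.PAR.t pTH1 pPOL

end Pool.Agent.Helper84.BT
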